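import Pool.Agent.V11308.Domb
import Pool.Agent.V11308.Jacobsthal

/-!
# MP_4af00a, Q1: the congruence modulo `p^6`.
-/

namespace Pool.Agent.Results.MP_4af00a_nt.ModP6

open Finset Pool.Agent.V11308

/-- `s_n = ∑_k C(n,k)^2 C(2k,k) C(2(n-k),n-k)` -/
def s (n : ℕ) : ℤ := ∑ k ∈ Finset.range (n + 1),
  (n.choose k : ℤ) ^ 2 * ((2 * k).choose k : ℤ) * ((2 * (n - k)).choose (n - k) : ℤ)

/-- the Fermat quotient `(2^(p-1) - 1) / p` -/
def q (p : ℕ) : ℤ := (2 ^ (p - 1) - 1) / p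

/-! ## Saalschütz -/

section saal

variable {K : Type*} [Field K] [CharZero K]

/-- the generalised binomial coefficient `C(A,j)` -/
def bb (A : K) (j : ℕ) : K := ∏ i ∈ Finset.range j, (A - i) / (i + 1)

/-- `C(A+N,N)` -/
def cn (A : K) (N : ℕ) : K := ∏ i ∈ Finset.range N, (A + i + 1) / (i + 1)

lemma bb_succ (A : K) (j : ℕ) : bb A (j + 1) * (j + 1) = bb A j * (A - j) := by
  unfold bb
  rw [Finset.prod_range_succ]
  have : (j : K) + 1 ≠ 0 := Nat.cast_add_one_ne_zero j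
  field_simp

lemma cn_succ (A : K) (N : ℕ) : cn A (N + 1) * (N + 1) = cn A N * (A + N + 1) := by
  unfold cn
  rw [Finset.prod_range_succ]
  have : (N : K) + 1 ≠ 0 := Nat.cast_add_one_ne_zero N
  field_simp

lemma saal (A C : K) (N : ℕ) :
    ∑ j ∈ Finset.range (N + 1), bb A j * bb C j * cn (A + C) (N - j) = cn A N * cn C N := by
  induction N with
  | zero => simp [bb, cn]
  | succ N ih =>
    have hN : ((N : K) + 1) ≠ 0 := Nat.cast_add_one_ne_zero N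
    -- termwise identity
    have h1 : ∀ j ∈ Finset.range (N + 1), ((N : K) + 1) ^ 2 * (bb A j * bb C j * cn (A + C) (N + 1 - j)) -
        (A + N + 1) * (C + N + 1) * (bb A j * bb C j * cn (A + C) (N - j)) =
        (j : K) ^ 2 * (bb A j * bb C j * cn (A + C) (N + 1 - j)) -
          ((j + 1 : ℕ) : K) ^ 2 * (bb A (j + 1) * bb C (j + 1) * cn (A + C) (N + 1 - (j + 1))) := by
      intro j hj
      rw [Finset.mem_range] at hj
      have e1 := bb_succ A j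
      have e2 := bb_succ C j
      have e3 := cn_succ (A + C) (N - j)
      rw [show N - j + 1 = N + 1 - j by omega, Nat.cast_sub (by omega : j ≤ N)] at e3
      rw [show N + 1 - (j + 1) = N - j by omega]
      push_cast
      linear_combination ((N : K) + 1 + j) * bb A j * bb C j * e3 +
        cn (A + C) (N - j) * (bb C (j + 1) * (j + 1)) * e1 +
        cn (A + C) (N - j) * (bb A j * (A - j)) * e2
    have h2 := Finset.sum_congr rfl h1
    rw [Finset.sum_sub_distrib, ← Finset.mul_sum, ← Finset.mul_sum, ih,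
      Finset.sum_range_sub' (fun j => (j : K) ^ 2 * (bb A j * bb C j * cn (A + C) (N + 1 - j)))] at h2
    have e4 := cn_succ A N
    have e5 := cn_succ C N
    rw [Finset.sum_range_succ]
    apply mul_left_cancel₀ (pow_ne_zero 2 hN)
    push_cast at h2
    rw [Nat.sub_self] at h2 ⊢
    linear_combination h2 - (cn C (N + 1) * (N + 1)) * e4 - (cn A N * (A + N + 1)) * e5

end saal

/-! ## Products modulo `p^3` -/

variable {p : ℕ} [hp : Fact p.Prime]

lemma prod_mod_p (x : ℕ → ℤ_[p]) (S : Finset ℕ) (hx : ∀ i ∈ S, ∃ e, x i = 1 + p * e) :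
    ∃ e, ∏ i ∈ S, x i = 1 + p * e := by
  classical
  induction S using Finset.induction_on with
  | empty => exact ⟨0, by simp⟩
  | insert a S ha ih =>
    obtain ⟨e, he⟩ := ih (fun i hi => hx i (Finset.mem_insert_of_mem hi))
    obtain ⟨f, hf⟩ := hx a (Finset.mem_insert_self a S)
    rw [Finset.prod_insert ha, he, hf]
    exact ⟨f + e + p * f * e, by ring⟩

lemma prod_mod_p3 (x y : ℕ → ℤ_[p]) (S : Finset ℕ) (hx : ∀ i ∈ S, ∃ e, x i = 1 + p * e) :
    ∃ e, ∏ i ∈ S, (x i + p ^ 2 * y i) = ∏ i ∈ S, x i + p ^ 2 * ∑ i ∈ S, y i + p ^ 3 * e := by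
  classical
  induction S using Finset.induction_on with
  | empty => exact ⟨0, by simp⟩
  | insert a S ha ih =>
    have hx' : ∀ i ∈ S, ∃ e, x i = 1 + p * e := fun i hi => hx i (Finset.mem_insert_of_mem hi)
    obtain ⟨e, he⟩ := ih hx'
    obtain ⟨f, hf⟩ := hx a (Finset.mem_insert_self a S)
    obtain ⟨g, hg⟩ := prod_mod_p x S hx'
    rw [Finset.prod_insert ha, Finset.prod_insert ha, Finset.sum_insert ha, he]
    refine ⟨(x a + p ^ 2 * y a) * e + f * ∑ i ∈ S, y i + y a * g + p * y a * ∑ i ∈ S, y i, ?_⟩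
    generalize ∑ i ∈ S, y i = Y at *
    generalize ∏ i ∈ S, x i = X at *
    linear_combination (p ^ 2 * Y) * hf + (p ^ 2 * y a) * hg

/-! ## The half sums -/

lemma half_sq (N : ℕ) (hpN : p = 2 * N + 1) (hp5 : 5 ≤ p) :
    (p : ℤ_[p]) ∣ ∑ l ∈ Finset.Ico 1 (N + 1), t p l ^ 2 := by
  have h1 := dvd_H (p := p) (s := 2) (by
    intro h; have := Nat.le_of_dvd (by norm_num) h; omega)
  unfold H at h1
  have h2 : ∑ k ∈ Finset.Ico 1 p, t p k ^ 2 = ∑ k ∈ Finset.Ico 1 (N + 1), t p k ^ 2 +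
      ∑ k ∈ Finset.Ico 1 (N + 1), t p (p - k) ^ 2 := by
    rw [← Finset.sum_Ico_consecutive _ (by omega : 1 ≤ N + 1) (by omega : N + 1 ≤ p)]
    congr 1
    apply Finset.sum_bij' (fun k _ => p - k) (fun k _ => p - k)
    · intro k hk; rw [Finset.mem_Ico] at *; omega
    · intro k hk; rw [Finset.mem_Ico] at *; omega
    · intro k hk; rw [Finset.mem_Ico] at *; omega
    · intro k hk; rw [Finset.mem_Ico] at *; omega
    · intro k hk
      rw [Finset.mem_Ico] at hk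
      congr 2; omega
  have h3 : ∀ k ∈ Finset.Ico 1 (N + 1), ∃ e : ℤ_[p], t p (p - k) ^ 2 = t p k ^ 2 + p * e := by
    intro k hk
    rw [Finset.mem_Ico] at hk
    obtain ⟨e, he⟩ := t_reflect (p := p) (k := k) (by rw [Finset.mem_Ico]; omega)
    rw [he]
    exact ⟨2 * t p k ^ 3 + p * t p k ^ 4 - 2 * p * e * t p k - 2 * p ^ 2 * e * t p k ^ 2 +
      p ^ 3 * e ^ 2, by ring⟩
  choose! e he using h3
  rw [h2, Finset.sum_congr rfl he, Finset.sum_add_distrib, ← Finset.mul_sum, ← add_assoc] at h1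
  have h4 := (dvd_add_left (dvd_mul_right _ _)).1 h1
  have h5 : IsUnit ((2 : ℕ) : ℤ_[p]) := isUnit_cast (by
    intro h; have := Nat.le_of_dvd (by norm_num) h; omega)
  apply (h5.dvd_mul_left).1
  convert h4 using 1
  push_cast
  ring

/-- `2 t(2l) = t(l)`. -/
lemma two_t (l : ℕ) (hl : ¬ p ∣ 2 * l) : 2 * t p (2 * l) = t p l := by
  have hl' : ¬ p ∣ l := fun h => hl (h.mul_left 2)
  have e1 := mul_t hl
  have e2 := mul_t hl'
  push_cast at e1
  linear_combination (-2 * t p (2 * l)) * e2 + t p l * e1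

/-- `∏_{l ≤ N} (1 + x p / (2l))` -/
noncomputable def uu (p : ℕ) [Fact p.Prime] (N : ℕ) (x : ℤ_[p]) : ℤ_[p] :=
  ∏ l ∈ Finset.Ico 1 (N + 1), (1 + x * p * t p (2 * l))

lemma dvd_quarter (N : ℕ) (hpN : p = 2 * N + 1) (hp5 : 5 ≤ p) :
    (p : ℤ_[p]) ∣ ∑ l ∈ Finset.Ico 1 (N + 1), t p (2 * l) ^ 2 := by
  have h1 := half_sq (p := p) N hpN hp5
  have h2 : ∑ l ∈ Finset.Ico 1 (N + 1), t p l ^ 2 =
      ((4 : ℕ) : ℤ_[p]) * ∑ l ∈ Finset.Ico 1 (N + 1), t p (2 * l) ^ 2 := by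
    rw [Finset.mul_sum]
    apply Finset.sum_congr rfl
    intro l hl
    rw [Finset.mem_Ico] at hl
    rw [← two_t l (Nat.not_dvd_of_pos_of_lt (by omega) (by omega))]
    push_cast; ring
  rw [h2] at h1
  have h5 : IsUnit ((4 : ℕ) : ℤ_[p]) := isUnit_cast (by
    intro h
    have := Nat.le_of_dvd (by norm_num) h
    omega)
  exact (h5.dvd_mul_left).1 h1

lemma uu_prod (N : ℕ) (hpN : p = 2 * N + 1) (hp5 : 5 ≤ p) :
    ∃ e, uu p N (-1) * uu p N 1 = 1 + (p : ℤ_[p]) ^ 3 * e := by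
  obtain ⟨e, he⟩ := prod_mod_p3 (p := p) (fun _ => 1) (fun l => - t p (2 * l) ^ 2)
    (Finset.Ico 1 (N + 1)) (fun _ _ => ⟨0, by ring⟩)
  obtain ⟨c, hc⟩ := dvd_quarter (p := p) N hpN hp5
  refine ⟨e - c, ?_⟩
  unfold uu
  rw [← Finset.prod_mul_distrib]
  have h1 : ∏ l ∈ Finset.Ico 1 (N + 1), ((1 + -1 * (p : ℤ_[p]) * t p (2 * l)) *
      (1 + 1 * p * t p (2 * l))) =
      ∏ l ∈ Finset.Ico 1 (N + 1), (1 + (p : ℤ_[p]) ^ 2 * (- t p (2 * l) ^ 2)) :=
    Finset.prod_congr rfl (fun l _ => by ring)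
  rw [h1, he, Finset.prod_const_one, Finset.sum_neg_distrib, hc]
  ring

lemma uu_sq (N : ℕ) (hpN : p = 2 * N + 1) (hp5 : 5 ≤ p) :
    ∃ e, uu p N (-1) ^ 2 = ∏ l ∈ Finset.Ico 1 (N + 1), (1 - (p : ℤ_[p]) * t p l) +
      (p : ℤ_[p]) ^ 3 * e := by
  obtain ⟨e, he⟩ := prod_mod_p3 (p := p) (fun l => 1 - p * t p l) (fun l => t p (2 * l) ^ 2)
    (Finset.Ico 1 (N + 1)) (fun l _ => ⟨-t p l, by ring⟩)
  obtain ⟨c, hc⟩ := dvd_quarter (p := p) N hpN hp5
  refine ⟨e + c, ?_⟩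
  unfold uu
  rw [← Finset.prod_pow]
  have h1 : ∏ l ∈ Finset.Ico 1 (N + 1), (1 + -1 * (p : ℤ_[p]) * t p (2 * l)) ^ 2 =
      ∏ l ∈ Finset.Ico 1 (N + 1), ((1 - p * t p l) + (p : ℤ_[p]) ^ 2 * (t p (2 * l) ^ 2)) := by
    apply Finset.prod_congr rfl
    intro l hl
    rw [Finset.mem_Ico] at hl
    rw [← two_t l (Nat.not_dvd_of_pos_of_lt (by omega) (by omega))]
    ring
  rw [h1, he, hc]
  ring

/-- `∏_{i<N} 2(2i+1) = N! C(2N,N)` -/
lemma prod_odd (N : ℕ) : ∏ i ∈ Finset.range N, (2 * (2 * i + 1)) = N.factorial * N.centralBinom := by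
  induction N with
  | zero => simp
  | succ N ih =>
    rw [Finset.prod_range_succ, ih, Nat.factorial_succ]
    have := Nat.succ_mul_centralBinom_succ N
    calc N.factorial * N.centralBinom * (2 * (2 * N + 1))
        = N.factorial * (2 * (2 * N + 1) * N.centralBinom) := by ring
      _ = N.factorial * ((N + 1) * (N + 1).centralBinom) := by rw [this]
      _ = _ := by ring

/-- `∏_{i<N} (N+1+i) = N! C(2N,N)` -/
lemma prod_asc (N : ℕ) : ∏ i ∈ Finset.range N, (N + 1 + i) = N.factorial * N.centralBinom := by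
  rw [← Nat.ascFactorial_eq_prod_range]
  have h1 := Nat.factorial_mul_ascFactorial N N
  have h2 := Nat.choose_mul_factorial_mul_factorial (by omega : N ≤ 2 * N)
  rw [show 2 * N - N = N by omega] at h2
  unfold Nat.centralBinom
  rw [show N + N = 2 * N by ring, ← h2] at h1
  have h3 : N.factorial * (N + 1).ascFactorial N = N.factorial * (N.factorial * (2 * N).choose N) := by
    rw [h1]; ring
  exact Nat.eq_of_mul_eq_mul_left (Nat.factorial_pos N) h3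

/-- `∏_{l ≤ N} (1 - p/l) = 4^N ∏_{l ≤ N} (1 - p/(2l))` for `p = 2N+1`. -/
lemma f1_eq (N : ℕ) (hpN : p = 2 * N + 1) :
    ∏ l ∈ Finset.Ico 1 (N + 1), (1 - (p : ℤ_[p]) * t p l) = 4 ^ N * uu p N (-1) := by
  have hfac : ((∏ l ∈ Finset.Ico 1 (N + 1), (l : ℤ_[p]))) ≠ 0 := by
    rw [Finset.prod_ne_zero_iff]
    intro l hl
    rw [Finset.mem_Ico] at hl
    exact_mod_cast (by omega : l ≠ 0)
  have h1 : (∏ l ∈ Finset.Ico 1 (N + 1), (1 - (p : ℤ_[p]) * t p l)) *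
      ∏ l ∈ Finset.Ico 1 (N + 1), (l : ℤ_[p]) = ∏ l ∈ Finset.Ico 1 (N + 1), ((l : ℤ_[p]) - p) := by
    rw [← Finset.prod_mul_distrib]
    apply Finset.prod_congr rfl
    intro l hl
    rw [Finset.mem_Ico] at hl
    have := mul_t (p := p) (k := l) (Nat.not_dvd_of_pos_of_lt (by omega) (by omega))
    linear_combination (-(p : ℤ_[p])) * this
  have h2 : uu p N (-1) * ∏ l ∈ Finset.Ico 1 (N + 1), (2 * (l : ℤ_[p])) =
      ∏ l ∈ Finset.Ico 1 (N + 1), (2 * (l : ℤ_[p]) - p) := by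
    unfold uu
    rw [← Finset.prod_mul_distrib]
    apply Finset.prod_congr rfl
    intro l hl
    rw [Finset.mem_Ico] at hl
    have := mul_t (p := p) (k := 2 * l) (Nat.not_dvd_of_pos_of_lt (by omega) (by omega))
    push_cast at this
    linear_combination (-(p : ℤ_[p])) * this
  have h3 : ∏ l ∈ Finset.Ico 1 (N + 1), ((l : ℤ_[p]) - p) =
      (-1) ^ N * ((∏ i ∈ Finset.range N, (N + 1 + i) : ℕ) : ℤ_[p]) := by
    rw [Finset.prod_Ico_eq_prod_range, ← Finset.prod_range_reflect]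
    push_cast
    have h4 : ((-1 : ℤ_[p])) ^ N = ∏ _i ∈ Finset.range N, (-1 : ℤ_[p]) := by
      rw [Finset.prod_const, Finset.card_range]
    rw [h4, ← Finset.prod_mul_distrib]
    apply Finset.prod_congr rfl
    intro i hi
    rw [Finset.mem_range] at hi
    have h5 : ((N - 1 - i : ℕ) : ℤ_[p]) = N - 1 - i := by
      rw [Nat.sub_sub, Nat.cast_sub (by omega)]; push_cast; ring
    have h6 : (p : ℤ_[p]) = 2 * N + 1 := by
      have := congrArg (Nat.cast : ℕ → ℤ_[p]) hpN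
      push_cast at this
      exact this
    rw [h5, h6]
    ring
  have h4 : ∏ l ∈ Finset.Ico 1 (N + 1), (2 * (l : ℤ_[p]) - p) * 2 =
      (-1) ^ N * ((∏ i ∈ Finset.range N, (2 * (2 * i + 1)) : ℕ) : ℤ_[p]) := by
    rw [Finset.prod_Ico_eq_prod_range, ← Finset.prod_range_reflect]
    push_cast
    have h4 : ((-1 : ℤ_[p])) ^ N = ∏ _i ∈ Finset.range N, (-1 : ℤ_[p]) := by
      rw [Finset.prod_const, Finset.card_range]
    rw [h4, ← Finset.prod_mul_distrib]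
    apply Finset.prod_congr rfl
    intro i hi
    rw [Finset.mem_range] at hi
    have h5 : ((N - 1 - i : ℕ) : ℤ_[p]) = N - 1 - i := by
      rw [Nat.sub_sub, Nat.cast_sub (by omega)]; push_cast; ring
    have h6 : (p : ℤ_[p]) = 2 * N + 1 := by
      have := congrArg (Nat.cast : ℕ → ℤ_[p]) hpN
      push_cast at this
      exact this
    rw [h5, h6]
    ring
  rw [prod_asc] at h3
  rw [prod_odd, ← h3, Finset.prod_mul_distrib, Finset.prod_const, Nat.card_Ico,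
    show N + 1 - 1 = N by omega, ← h2, ← h1, Finset.prod_mul_distrib, Finset.prod_const, Nat.card_Ico,
    show N + 1 - 1 = N by omega] at h4
  apply mul_right_cancel₀ hfac
  rw [← h4, show (4 : ℤ_[p]) = 2 * 2 by norm_num, mul_pow]
  ring

/-! ## The terms of `s_{p-1}` -/

/-- the Saalschützian term -/
noncomputable def rho (p : ℕ) [Fact p.Prime] (j : ℕ) : ℤ_[p] :=
  ∏ i ∈ Finset.range j, ((p + i) * (2 * i + 1) * (2 * i + 1 - p) * t p (i + 1) ^ 2 * t p 2 *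
    t p (2 * i + 2 + p))

/-- the correction factor -/
noncomputable def DD (p : ℕ) [Fact p.Prime] (j : ℕ) : ℤ_[p] :=
  ∏ i ∈ Finset.range j, (1 - (p : ℤ_[p]) ^ 2 * t p (2 * i + 2) ^ 2)

/-- the natural number `C(p-1+j,j) C(p-1,2j) C(2j,j)^2` -/
def MM (p j : ℕ) : ℕ := (p - 1 + j).choose j * (p - 1).choose (2 * j) * ((2 * j).choose j) ^ 2

lemma MM_succ (j : ℕ) (hj : 2 * j + 2 ≤ p - 1) :
    ((MM p (j + 1) : ℕ) : ℤ_[p]) * ((j + 1) ^ 3 * (2 * j + 2) * (2 * j + 1)) =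
      (MM p j : ℕ) * ((p + j) * (p - 1 - 2 * j) * (p - 2 - 2 * j) * (4 * (2 * j + 1) ^ 2)) := by
  have hp1 := hp.out.pos
  have e1 : (((p - 1 + (j + 1)).choose (j + 1) : ℕ) : ℤ_[p]) * (j + 1) =
      (p + j) * ((p - 1 + j).choose j : ℕ) := by
    have h := congrArg (Nat.cast : ℕ → ℤ_[p]) (Nat.add_one_mul_choose_eq (p - 1 + j) j)
    rw [show p - 1 + j + 1 = p + j by omega] at h
    push_cast at h
    rw [show p - 1 + (j + 1) = p + j by omega]
    linear_combination -h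
  have e2 : (((p - 1).choose (2 * (j + 1)) : ℕ) : ℤ_[p]) * ((2 * j + 2) * (2 * j + 1)) =
      (p - 1 - 2 * j) * (p - 2 - 2 * j) * ((p - 1).choose (2 * j) : ℕ) := by
    have h1 : (((p - 1).choose (2 * j + 1 + 1) : ℕ) : ℤ_[p]) * (2 * j + 1 + 1) =
        ((p - 1).choose (2 * j + 1) : ℕ) * ((p - 1 - (2 * j + 1) : ℕ) : ℤ_[p]) := by
      exact_mod_cast congrArg (Nat.cast : ℕ → ℤ_[p]) (Nat.choose_succ_right_eq (p - 1) (2 * j + 1))
    have h2 : (((p - 1).choose (2 * j + 1) : ℕ) : ℤ_[p]) * (2 * j + 1) =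
        ((p - 1).choose (2 * j) : ℕ) * ((p - 1 - 2 * j : ℕ) : ℤ_[p]) := by
      exact_mod_cast congrArg (Nat.cast : ℕ → ℤ_[p]) (Nat.choose_succ_right_eq (p - 1) (2 * j))
    rw [Nat.cast_sub (by omega), Nat.cast_sub (by omega)] at h1 h2
    push_cast at h1 h2
    rw [show 2 * (j + 1) = 2 * j + 1 + 1 by ring]
    linear_combination (2 * j + 1 : ℤ_[p]) * h1 + (p - 2 - 2 * j : ℤ_[p]) * h2
  have e3 : (((2 * (j + 1)).choose (j + 1) : ℕ) : ℤ_[p]) * (j + 1) =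
      2 * (2 * j + 1) * ((2 * j).choose j : ℕ) := by
    have h := Nat.succ_mul_centralBinom_succ j
    unfold Nat.centralBinom at h
    have h2 := congrArg (Nat.cast : ℕ → ℤ_[p]) h
    push_cast at h2
    linear_combination h2
  unfold MM
  push_cast
  generalize (((p - 1 + (j + 1)).choose (j + 1) : ℕ) : ℤ_[p]) = x1 at *
  generalize (((p - 1 + j).choose j : ℕ) : ℤ_[p]) = x2 at *
  generalize (((p - 1).choose (2 * (j + 1)) : ℕ) : ℤ_[p]) = y1 at *
  generalize (((p - 1).choose (2 * j) : ℕ) : ℤ_[p]) = y2 at *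
  generalize (((2 * (j + 1)).choose (j + 1) : ℕ) : ℤ_[p]) = z1 at *
  generalize (((2 * j).choose j : ℕ) : ℤ_[p]) = z2 at *
  calc x1 * y1 * z1 ^ 2 * (((j : ℤ_[p]) + 1) ^ 3 * (2 * j + 2) * (2 * j + 1))
      = (x1 * (j + 1)) * (y1 * ((2 * j + 2) * (2 * j + 1))) * (z1 * (j + 1)) ^ 2 := by ring
    _ = _ := by rw [e1, e2, e3]; ring

lemma MM_eq (N : ℕ) (hpN : p = 2 * N + 1) (hp5 : 5 ≤ p) (j : ℕ) : j ≤ N →
    ((MM p j : ℕ) : ℤ_[p]) = 16 ^ j * rho p j * DD p j := by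
  induction j with
  | zero => intro _; simp [MM, rho, DD]
  | succ j ih =>
    intro hj
    have ih := ih (by omega)
    have hs := MM_succ (p := p) j (by omega)
    have n1 : ¬ p ∣ j + 1 := Nat.not_dvd_of_pos_of_lt (by omega) (by omega)
    have n2 : ¬ p ∣ 2 := Nat.not_dvd_of_pos_of_lt (by omega) (by omega)
    have n3 : ¬ p ∣ 2 * j + 2 := Nat.not_dvd_of_pos_of_lt (by omega) (by omega)
    have n4 : ¬ p ∣ 2 * j + 2 + p := by
      intro h; exact n3 ((Nat.dvd_add_left (dvd_refl p)).1 h)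
    have n5 : ¬ p ∣ 2 * j + 1 := Nat.not_dvd_of_pos_of_lt (by omega) (by omega)
    have e1 := mul_t n1
    have e2 := mul_t n2
    have e3 := mul_t n3
    have e4 := mul_t n4
    have u1 := isUnit_cast (p := p) n1
    have u3 := isUnit_cast (p := p) n3
    have u5 := isUnit_cast (p := p) n5
    push_cast at e1 e2 e3 e4 u1 u3 u5
    have hu : IsUnit (((j : ℤ_[p]) + 1) ^ 3 * (2 * j + 2) * (2 * j + 1)) :=
      ((u1.pow 3).mul u3).mul u5
    apply hu.mul_right_cancel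
    rw [hs, ih]
    have r1 : rho p (j + 1) = rho p j * ((p + j) * (2 * j + 1) * (2 * j + 1 - p) *
        t p (j + 1) ^ 2 * t p 2 * t p (2 * j + 2 + p)) := by
      unfold rho; rw [Finset.prod_range_succ]
    have r2 : DD p (j + 1) = DD p j * (1 - (p : ℤ_[p]) ^ 2 * t p (2 * j + 2) ^ 2) := by
      unfold DD; rw [Finset.prod_range_succ]
    rw [r1, r2, pow_succ 16 j]
    generalize rho p j = ρ
    generalize DD p j = δ
    generalize (16 : ℤ_[p]) ^ j = w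
    generalize t p (j + 1) = a at *
    generalize t p (2 * j + 2 + p) = b at *
    generalize t p (2 * j + 2) = c at *
    generalize t p 2 = d at *
    -- `1 - p^2 c^2 = (2j+2-p)(2j+2+p) c^2`
    have f1 : (1 - (p : ℤ_[p]) ^ 2 * c ^ 2) = (2 * j + 2 - p) * (2 * j + 2 + p) * c ^ 2 := by
      linear_combination (-((2 * (j : ℤ_[p]) + 2) * c + 1)) * e3
    have f2 : ((j : ℤ_[p]) + 1) * c = d := by
      linear_combination d * e3 - ((j : ℤ_[p]) + 1) * c * e2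
    have f3 : 16 * d ^ 2 = (4 : ℤ_[p]) := by linear_combination (4 * (2 * d + 1)) * e2
    rw [f1]
    have f4 : ((2 * (j : ℤ_[p]) + 2) + p) * b = 1 := e4
    calc w * ρ * δ * ((p + (j : ℤ_[p])) * (p - 1 - 2 * j) * (p - 2 - 2 * j) * (4 * (2 * j + 1) ^ 2))
        = w * ρ * δ * ((p + (j : ℤ_[p])) * (2 * j + 1 - p) * (2 * j + 2 - p) *
            ((16 * d ^ 2) * (2 * j + 1) ^ 2)) := by rw [f3]; ring
      _ = w * ρ * δ * ((p + (j : ℤ_[p])) * (2 * j + 1 - p) * (2 * j + 2 - p) *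
            ((16 * (d * ((j + 1) * c))) * (2 * j + 1) ^ 2)) := by rw [f2]; ring
      _ = w * ρ * δ * ((p + (j : ℤ_[p])) * (2 * j + 1 - p) * (2 * j + 2 - p) *
            ((16 * (d * ((j + 1) * c))) * (2 * j + 1) ^ 2)) * (((2 * j + 2) + p) * b) *
            (((j + 1) * a) ^ 2) * ((2 * j + 2) * c) := by rw [f4, e1, e3]; ring
      _ = _ := by ring

lemma rho_dvd (j : ℕ) (hj : 1 ≤ j) : (p : ℤ_[p]) ∣ rho p j := by
  obtain ⟨i, rfl⟩ : ∃ i, j = i + 1 := ⟨j - 1, by omega⟩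
  unfold rho
  rw [Finset.prod_range_succ']
  refine Dvd.dvd.mul_left ?_ _
  apply Dvd.dvd.mul_right
  apply Dvd.dvd.mul_right
  apply Dvd.dvd.mul_right
  apply Dvd.dvd.mul_right
  apply Dvd.dvd.mul_right
  rw [Nat.cast_zero, add_zero]

lemma DD_mod (j : ℕ) : ∃ e, DD p j = 1 + (p : ℤ_[p]) ^ 2 * e := by
  induction j with
  | zero => exact ⟨0, by simp [DD]⟩
  | succ j ih =>
    obtain ⟨e, he⟩ := ih
    refine ⟨e - t p (2 * j + 2) ^ 2 - p ^ 2 * e * t p (2 * j + 2) ^ 2, ?_⟩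
    unfold DD at he ⊢
    rw [Finset.prod_range_succ, he]
    ring

/-- the Saalschützian terms in `ℚ_[p]` -/
lemma rho_saal (N : ℕ) (hpN : p = 2 * N + 1) (hp5 : 5 ≤ p) (j : ℕ) : j ≤ N →
    cn (-(p : ℚ_[p]) + -(1 / 2)) N * (rho p j : ℚ_[p]) =
      bb (-(p : ℚ_[p])) j * bb (-(1 / 2) : ℚ_[p]) j * cn (-(p : ℚ_[p]) + -(1 / 2)) (N - j) := by
  induction j with
  | zero => intro _; simp [bb, rho]
  | succ j ih =>
    intro hj
    have ih := ih (by omega)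
    have n1 : ¬ p ∣ j + 1 := Nat.not_dvd_of_pos_of_lt (by omega) (by omega)
    have n2 : ¬ p ∣ 2 := Nat.not_dvd_of_pos_of_lt (by omega) (by omega)
    have n3 : ¬ p ∣ 2 * j + 2 := Nat.not_dvd_of_pos_of_lt (by omega) (by omega)
    have n4 : ¬ p ∣ 2 * j + 2 + p := by
      intro h; exact n3 ((Nat.dvd_add_left (dvd_refl p)).1 h)
    have cst : ∀ k : ℕ, ¬ p ∣ k → ((t p k : ℤ_[p]) : ℚ_[p]) = (k : ℚ_[p])⁻¹ := by
      intro k hk
      have h1 := congrArg (fun z : ℤ_[p] => (z : ℚ_[p])) (mul_t hk)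
      have h2 : (k : ℚ_[p]) * ((t p k : ℤ_[p]) : ℚ_[p]) = 1 := by simpa using h1
      exact eq_inv_of_mul_eq_one_right h2
    have r1 : ((rho p (j + 1) : ℤ_[p]) : ℚ_[p]) = (rho p j : ℚ_[p]) * ((p + j) * (2 * j + 1) *
        (2 * j + 1 - p) * ((j + 1 : ℕ) : ℚ_[p])⁻¹ ^ 2 * ((2 : ℕ) : ℚ_[p])⁻¹ *
          ((2 * j + 2 + p : ℕ) : ℚ_[p])⁻¹) := by
      unfold rho
      rw [Finset.prod_range_succ, ← cst _ n1, ← cst _ n2, ← cst _ n4]
      have z2 : ((2 : ℤ_[p]) : ℚ_[p]) = 2 := rfl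
      push_cast
      rw [z2]
    have e1 := bb_succ (-(p : ℚ_[p])) j
    have e2 := bb_succ (-(1 / 2) : ℚ_[p]) j
    have e3 := cn_succ (-(p : ℚ_[p]) + -(1 / 2)) (N - (j + 1))
    rw [show N - (j + 1) + 1 = N - j by omega, Nat.cast_sub (by omega : j + 1 ≤ N)] at e3
    have hN : (N : ℚ_[p]) = (p - 1) / 2 := by
      have := congrArg (Nat.cast : ℕ → ℚ_[p]) hpN
      push_cast at this
      rw [this]; ring
    rw [hN] at e3
    have hj1 : ((j : ℚ_[p]) + 1) ≠ 0 := Nat.cast_add_one_ne_zero j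
    have hb : (2 * (j : ℚ_[p]) + 2 + p) ≠ 0 := by
      exact_mod_cast (by omega : 2 * j + 2 + p ≠ 0)
    rw [r1, ← mul_assoc, ih]
    push_cast at e3 ⊢
    generalize cn (-(p : ℚ_[p]) + -(1 / 2)) (N - (j + 1)) = c1 at *
    generalize cn (-(p : ℚ_[p]) + -(1 / 2)) (N - j) = c0 at *
    generalize bb (-(p : ℚ_[p])) (j + 1) = a1 at *
    generalize bb (-(p : ℚ_[p])) j = a0 at *
    generalize bb (-(1 / 2) : ℚ_[p]) (j + 1) = b1 at *
    generalize bb (-(1 / 2) : ℚ_[p]) j = b0 at *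
    have g1 : a1 = a0 * (-(p : ℚ_[p]) - j) / (j + 1) := by
      rw [eq_div_iff hj1]; exact e1
    have g2 : b1 = b0 * (-(1 / 2) - j) / (j + 1) := by
      rw [eq_div_iff hj1]; exact e2
    have g3 : c1 * (2 * (j : ℚ_[p]) + 2 + p) = c0 * (2 * j + 1 - p) := by
      linear_combination 2 * e3
    have g4 : c1 = c0 * (2 * j + 1 - p) / (2 * (j : ℚ_[p]) + 2 + p) := by
      rw [eq_div_iff hb]; exact g3
    rw [g1, g2, g4]
    field_simp
    ring

lemma coe_t {k : ℕ} (hk : ¬ p ∣ k) : ((t p k : ℤ_[p]) : ℚ_[p]) = (k : ℚ_[p])⁻¹ := by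
  have h1 := congrArg (fun z : ℤ_[p] => (z : ℚ_[p])) (mul_t hk)
  have h2 : (k : ℚ_[p]) * ((t p k : ℤ_[p]) : ℚ_[p]) = 1 := by simpa using h1
  exact eq_inv_of_mul_eq_one_right h2

lemma coe_prod' (f : ℕ → ℤ_[p]) (S : Finset ℕ) :
    ((∏ i ∈ S, f i : ℤ_[p]) : ℚ_[p]) = ∏ i ∈ S, (f i : ℚ_[p]) :=
  map_prod PadicInt.Coe.ringHom f S

lemma cn_f1 (N : ℕ) (hpN : p = 2 * N + 1) :
    cn (-(p : ℚ_[p])) N =
      ((∏ l ∈ Finset.Ico 1 (N + 1), (1 - (p : ℤ_[p]) * t p l) : ℤ_[p]) : ℚ_[p]) := by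
  unfold cn
  rw [Finset.prod_Ico_eq_prod_range, show N + 1 - 1 = N by omega, coe_prod']
  apply Finset.prod_congr rfl
  intro i hi
  rw [Finset.mem_range] at hi
  have h1 : ¬ p ∣ 1 + i := Nat.not_dvd_of_pos_of_lt (by omega) (by omega)
  push_cast
  rw [coe_t h1]
  have : (1 + (i : ℚ_[p])) ≠ 0 := by
    rw [add_comm]; exact Nat.cast_add_one_ne_zero i
  have h2 : ((i : ℚ_[p]) + 1) ≠ 0 := Nat.cast_add_one_ne_zero i
  push_cast
  field_simp
  ring

/-- the quotient of the other two products -/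
lemma cn_quot (N : ℕ) (hpN : p = 2 * N + 1) :
    (uu p N 1 : ℚ_[p]) * cn (-(1 / 2) : ℚ_[p]) N =
      (uu p N (-1) : ℚ_[p]) * cn (-(p : ℚ_[p]) + -(1 / 2)) N := by
  have hN : (p : ℚ_[p]) = 2 * N + 1 := by
    have := congrArg (Nat.cast : ℕ → ℚ_[p]) hpN
    push_cast at this
    exact this
  have h1 : cn (-(1 / 2) : ℚ_[p]) N = ∏ i ∈ Finset.range N,
      ((2 * (((N - 1 - i : ℕ) : ℚ_[p]) + 1) - p) * (-1) / (2 * (i + 1))) := by
    unfold cn
    apply Finset.prod_congr rfl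
    intro i hi
    rw [Finset.mem_range] at hi
    rw [Nat.sub_sub, Nat.cast_sub (by omega), hN]
    have h2 : ((i : ℚ_[p]) + 1) ≠ 0 := Nat.cast_add_one_ne_zero i
    push_cast
    field_simp
    ring
  have h2 : cn (-(p : ℚ_[p]) + -(1 / 2)) N = ∏ i ∈ Finset.range N,
      ((2 * (((N - 1 - i : ℕ) : ℚ_[p]) + 1) + p) * (-1) / (2 * (i + 1))) := by
    unfold cn
    apply Finset.prod_congr rfl
    intro i hi
    rw [Finset.mem_range] at hi
    rw [Nat.sub_sub, Nat.cast_sub (by omega), hN]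
    have h2 : ((i : ℚ_[p]) + 1) ≠ 0 := Nat.cast_add_one_ne_zero i
    push_cast
    field_simp
    ring
  have h3 : ∀ x : ℤ_[p], ((uu p N x : ℤ_[p]) : ℚ_[p]) = ∏ i ∈ Finset.range N,
      (1 + (x : ℚ_[p]) * p / (2 * ((i : ℚ_[p]) + 1))) := by
    intro x
    unfold uu
    rw [Finset.prod_Ico_eq_prod_range, show N + 1 - 1 = N by omega, coe_prod']
    apply Finset.prod_congr rfl
    intro i hi
    rw [Finset.mem_range] at hi
    have h1 : ¬ p ∣ 2 * (1 + i) := Nat.not_dvd_of_pos_of_lt (by omega) (by omega)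
    push_cast
    rw [coe_t h1]
    push_cast
    rw [div_eq_mul_inv, add_comm (1 : ℚ_[p]) (i : ℚ_[p])]
  have h4 := Finset.prod_range_reflect (fun i => (1 + ((1 : ℤ_[p]) : ℚ_[p]) * p /
    (2 * ((i : ℚ_[p]) + 1)))) N
  have h5 := Finset.prod_range_reflect (fun i => (1 + ((-1 : ℤ_[p]) : ℚ_[p]) * p /
    (2 * ((i : ℚ_[p]) + 1)))) N
  rw [h3 1, h3 (-1), ← h4, ← h5, h1, h2, ← Finset.prod_mul_distrib, ← Finset.prod_mul_distrib]
  apply Finset.prod_congr rfl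
  intro i hi
  have h6 : (((N - 1 - i : ℕ) : ℚ_[p]) + 1) ≠ 0 := Nat.cast_add_one_ne_zero _
  have h7 : ((i : ℚ_[p]) + 1) ≠ 0 := Nat.cast_add_one_ne_zero i
  generalize ((N - 1 - i : ℕ) : ℚ_[p]) = y at *
  push_cast
  field_simp
  ring

lemma cn_ne_zero (N : ℕ) (hpN : p = 2 * N + 1) : cn (-(p : ℚ_[p]) + -(1 / 2)) N ≠ 0 := by
  unfold cn
  rw [Finset.prod_ne_zero_iff]
  intro i hi
  rw [Finset.mem_range] at hi
  have h2 : ((i : ℚ_[p]) + 1) ≠ 0 := Nat.cast_add_one_ne_zero i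
  apply div_ne_zero _ h2
  intro h
  have h3 : ((2 * i + 1 : ℕ) : ℚ_[p]) = ((2 * p : ℕ) : ℚ_[p]) := by
    push_cast
    linear_combination 2 * h
  have h4 : 2 * i + 1 = 2 * p := by exact_mod_cast h3
  omega

/-- the final algebra, abstractly -/
lemma algebra_step {R : Type*} [CommRing R] (P u v Z w e1 e2 u' : R)
    (he1 : u * v = 1 + P * e1) (he2 : u ^ 2 = w * u + P * e2) (h1 : v * Z = w * u * u)
    (hu' : u * u' = 1) : ∃ e, Z = w ^ 4 + P * e := by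
  have h10 : u = w + P * (u' * e2) := by
    linear_combination u' * he2 + (w - u) * hu'
  refine ⟨w * (3 * w ^ 2 * (u' * e2) + 3 * w * P * (u' * e2) ^ 2 + P ^ 2 * (u' * e2) ^ 3) -
    e1 * Z, ?_⟩
  have h13 : Z = w * u ^ 3 - P * (e1 * Z) := by
    linear_combination (-Z) * he1 + u * h1
  have h14 : w * u ^ 3 = w * (w + P * (u' * e2)) ^ 3 := by rw [← h10]
  linear_combination h13 + h14

lemma isUnit_one_add (x : ℤ_[p]) : IsUnit (1 + (p : ℤ_[p]) * x) := by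
  rw [PadicInt.isUnit_iff]
  have h7 : ‖(1 + (p : ℤ_[p]) * x)‖ ≤ 1 := PadicInt.norm_le_one _
  rcases h7.lt_or_eq with h8 | h8
  · exfalso
    have h9 : PadicInt.toZMod (1 + (p : ℤ_[p]) * x) = 0 := by
      rw [← RingHom.mem_ker, PadicInt.ker_toZMod, IsLocalRing.mem_maximalIdeal,
        mem_nonunits_iff, PadicInt.isUnit_iff]
      exact ne_of_lt h8
    simp at h9
  · exact h8

lemma exact_eval (N : ℕ) (hpN : p = 2 * N + 1) (hp5 : 5 ≤ p) :
    uu p N 1 * ∑ j ∈ Finset.range (N + 1), rho p j =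
      (∏ l ∈ Finset.Ico 1 (N + 1), (1 - (p : ℤ_[p]) * t p l)) * uu p N (-1) := by
  apply Subtype.ext
  rw [PadicInt.coe_mul, PadicInt.coe_mul, PadicInt.coe_sum, ← cn_f1 N hpN]
  have h2 := saal (-(p : ℚ_[p])) (-(1 / 2)) N
  have h3 : cn (-(p : ℚ_[p]) + -(1 / 2)) N * ∑ j ∈ Finset.range (N + 1), (rho p j : ℚ_[p]) =
      cn (-(p : ℚ_[p])) N * cn (-(1 / 2)) N := by
    rw [← h2, Finset.mul_sum]
    apply Finset.sum_congr rfl
    intro j hj
    rw [Finset.mem_range] at hj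
    exact rho_saal N hpN hp5 j (by omega)
  have h4 := cn_quot (p := p) N hpN
  apply mul_left_cancel₀ (cn_ne_zero (p := p) N hpN)
  linear_combination (uu p N 1 : ℚ_[p]) * h3 + cn (-(p : ℚ_[p])) N * h4

/-- the key congruence for the sum -/
lemma sum_rho (N : ℕ) (hpN : p = 2 * N + 1) (hp5 : 5 ≤ p) :
    ∃ e, ∑ j ∈ Finset.range (N + 1), rho p j = 16 ^ (p - 1) + (p : ℤ_[p]) ^ 3 * e := by
  have h1 := exact_eval (p := p) N hpN hp5
  obtain ⟨e1, he1⟩ := uu_prod (p := p) N hpN hp5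
  obtain ⟨e2, he2⟩ := uu_sq (p := p) N hpN hp5
  have h5 := f1_eq (p := p) N hpN
  rw [h5] at h1 he2
  -- `u` is a unit
  have hunit : IsUnit (uu p N (-1)) := by
    have h6 := isUnit_one_add (p := p) ((p : ℤ_[p]) ^ 2 * e1)
    have h7 : uu p N (-1) * uu p N 1 = 1 + p * (p ^ 2 * e1) := by rw [he1]; ring
    rw [← h7] at h6
    exact isUnit_of_mul_isUnit_left h6
  obtain ⟨u', hu'⟩ := hunit.exists_right_inv
  obtain ⟨e, he⟩ := algebra_step ((p : ℤ_[p]) ^ 3) _ _ _ ((4 : ℤ_[p]) ^ N) e1 e2 u' he1 he2 h1 hu'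
  have h14 : ((4 : ℤ_[p]) ^ N) ^ 4 = 16 ^ (p - 1) := by
    rw [← pow_mul, show N * 4 = 2 * (2 * N) by ring, pow_mul, show p - 1 = 2 * N by omega]
    norm_num
  rw [h14] at he
  exact ⟨e, he⟩

lemma s_eq_Domb (n : ℕ) : s n = Domb.s n := rfl

/-- `s_{p-1} ≡ 64^(p-1) mod p^3` -/
lemma s_pred (N : ℕ) (hpN : p = 2 * N + 1) (hp5 : 5 ≤ p) :
    ∃ e, ((s (p - 1) : ℤ) : ℤ_[p]) = 64 ^ (p - 1) + (p : ℤ_[p]) ^ 3 * e := by
  have h1 : ((s (p - 1) : ℤ) : ℤ_[p]) = 4 ^ (p - 1) * ∑ j ∈ Finset.range (N + 1), rho p j * DD p j := by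
    apply Subtype.ext
    have h2 := Domb.s_eq (p - 1)
    rw [show p - 1 + 1 = (N + 1) + N by omega, Finset.sum_range_add] at h2
    have h3 : ∑ x ∈ Finset.range N, Domb.t (p - 1) (N + 1 + x) = 0 := by
      apply Finset.sum_eq_zero
      intro x _
      exact Domb.t_eq_zero (by omega)
    rw [h3, add_zero] at h2
    have h4 := congrArg (fun r : ℚ => (r : ℚ_[p])) h2
    rw [PadicInt.coe_mul, PadicInt.coe_sum, PadicInt.coe_pow, Finset.mul_sum, PadicInt.coe_intCast]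
    have h5 : (((s (p - 1) : ℤ) : ℚ) : ℚ_[p]) = ((s (p - 1) : ℤ) : ℚ_[p]) := by simp
    rw [← h5, s_eq_Domb]
    refine h4.trans ?_
    rw [Rat.cast_sum]
    apply Finset.sum_congr rfl
    intro j hj
    rw [Finset.mem_range] at hj
    have h6 := MM_eq (p := p) N hpN hp5 j (by omega)
    have h7 := congrArg (fun z : ℤ_[p] => (z : ℚ_[p])) h6
    have z16 : ((16 : ℤ_[p]) : ℚ_[p]) = 16 := rfl
    have z4 : ((4 : ℤ_[p]) : ℚ_[p]) = 4 := rfl
    simp only [PadicInt.coe_mul, PadicInt.coe_pow, PadicInt.coe_natCast, z16] at h7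
    have h8 : ((Domb.t (p - 1) j : ℚ) : ℚ_[p]) = ((MM p j : ℕ) : ℚ_[p]) * 4 ^ (p - 1) / 16 ^ j := by
      unfold Domb.t MM
      push_cast
      ring
    have h9 : ((16 : ℚ_[p]) ^ j) ≠ 0 := pow_ne_zero _ (by norm_num)
    rw [h8, h7, z4, PadicInt.coe_mul]
    field_simp
  have h2 : ∀ j ∈ Finset.range (N + 1), ∃ e, rho p j * DD p j = rho p j + (p : ℤ_[p]) ^ 3 * e := by
    intro j _
    rcases Nat.eq_zero_or_pos j with h0 | h0
    · subst h0; exact ⟨0, by simp [DD]⟩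
    · obtain ⟨e, he⟩ := DD_mod (p := p) j
      obtain ⟨f, hf⟩ := rho_dvd (p := p) j h0
      exact ⟨f * e, by rw [he, hf]; ring⟩
  choose! e he using h2
  obtain ⟨g, hg⟩ := sum_rho (p := p) N hpN hp5
  have h64 : (64 : ℤ_[p]) ^ (p - 1) = 4 ^ (p - 1) * 16 ^ (p - 1) := by
    rw [← mul_pow]; norm_num
  refine ⟨4 ^ (p - 1) * (g + ∑ j ∈ Finset.range (N + 1), e j), ?_⟩
  rw [h1, Finset.sum_congr rfl he, Finset.sum_add_distrib, ← Finset.mul_sum, hg, h64]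
  ring

/-- `s_p ≡ 4 mod p^3` -/
lemma s_self (hp5 : 5 ≤ p) : ∃ e, ((s p : ℤ) : ℤ_[p]) = 4 + (p : ℤ_[p]) ^ 3 * e := by
  have hp1 := hp.out.pos
  obtain ⟨w, hw⟩ := wolstenholme (p := p) hp5
  have hw' : (((2 * p).choose p : ℕ) : ℤ_[p]) = 2 + (p : ℤ_[p]) ^ 3 * w := by
    linear_combination hw
  have h1 : (p : ℤ_[p]) ^ 3 ∣ ∑ k ∈ Finset.Ico 1 p, (((p.choose k : ℕ) : ℤ_[p]) ^ 2 *
      (((2 * k).choose k : ℕ) : ℤ_[p]) * (((2 * (p - k)).choose (p - k) : ℕ) : ℤ_[p])) := by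
    apply Finset.dvd_sum
    intro k hk
    rw [Finset.mem_Ico] at hk
    have h2 : p ∣ p.choose k := hp.out.dvd_choose_self (by omega) hk.2
    have h3 : p ∣ (2 * k).choose k * (2 * (p - k)).choose (p - k) := by
      rcases Nat.lt_or_ge (2 * k) p with h | h
      · apply Dvd.dvd.mul_left
        rw [two_mul]
        exact hp.out.dvd_choose_add (by omega) (by omega) (by omega)
      · apply Dvd.dvd.mul_right
        rw [two_mul]
        exact hp.out.dvd_choose_add (by omega) (by omega) (by omega)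
    obtain ⟨a, ha⟩ := h2
    obtain ⟨b, hb⟩ := h3
    have hb' := congrArg (Nat.cast : ℕ → ℤ_[p]) hb
    push_cast at hb'
    rw [ha]
    push_cast
    exact ⟨a ^ 2 * b, by linear_combination ((p : ℤ_[p]) * a) ^ 2 * hb'⟩
  obtain ⟨c, hc⟩ := h1
  refine ⟨2 * w + c, ?_⟩
  unfold s
  push_cast
  rw [Finset.sum_range_succ, Finset.range_eq_Ico, Finset.sum_eq_sum_Ico_succ_bot hp1, zero_add, hc]
  simp only [Nat.choose_zero_right, Nat.choose_self, Nat.sub_self, mul_zero, Nat.cast_one, one_pow,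
    one_mul, mul_one, Nat.sub_zero]
  rw [hw']
  ring

/-- For every prime `p > 3`,
`∑_{n<p} (3n^2+n)/16^n s_n ≡ -4 p^4 q_p(2) + 6 p^5 q_p(2)^2 mod p^6`. -/
theorem result : ∀ p : ℕ, p.Prime → 3 < p →
    (p : ℤ) ^ 6 ∣ ((∑ n ∈ Finset.range p, (3 * (n : ℚ) ^ 2 + n) / 16 ^ n * (s n : ℚ)) -
      (-4 * (p : ℚ) ^ 4 * (q p : ℚ) + 6 * (p : ℚ) ^ 5 * (q p : ℚ) ^ 2)).num := by
  intro p hp h3
  have : Fact p.Prime := ⟨hp⟩
  have hp0 : 0 < p := hp.pos
  have hp5 : 5 ≤ p := by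
    rcases Nat.lt_or_ge p 5 with h | h
    · exfalso
      obtain rfl : p = 4 := by omega
      exact absurd hp (by decide)
    · exact h
  obtain ⟨N, hN⟩ : ∃ N, p = 2 * N + 1 := by
    have h2 : ¬ 2 ∣ p := by
      intro h
      have := (Nat.prime_dvd_prime_iff_eq Nat.prime_two hp).1 h
      omega
    exact ⟨p / 2, by omega⟩
  -- the Fermat quotient
  have hq : (p : ℤ) * q p = 2 ^ (p - 1) - 1 := by
    unfold q
    apply Int.mul_ediv_cancel'
    have h2 : ((2 : ℤ)) ^ (p - 1) ≡ 1 [ZMOD p] := by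
      apply Int.ModEq.pow_card_sub_one_eq_one hp
      have : Nat.Coprime 2 p := by
        rw [Nat.coprime_primes Nat.prime_two hp]; omega
      exact_mod_cast (Nat.isCoprime_iff_coprime.2 this)
    exact h2.symm.dvd
  have htel := Domb.telescope (p - 1)
  rw [show p - 1 + 1 = p by omega] at htel
  -- the integer
  set I : ℤ := (p : ℤ) ^ 3 * (s p - 4 * s (p - 1)) -
    6 * 16 ^ (p - 1) * (-4 * (p : ℤ) ^ 4 * q p + 6 * (p : ℤ) ^ 5 * q p ^ 2) with hI
  have hI6 : (p : ℤ) ^ 6 ∣ I := by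
    rw [← PadicInt.pow_p_dvd_int_iff (p := p) 6]
    obtain ⟨e, he⟩ := s_pred (p := p) N hN hp5
    obtain ⟨f, hf⟩ := s_self (p := p) hp5
    have hq' := congrArg (Int.cast : ℤ → ℤ_[p]) hq
    push_cast at hq'
    have h16 : (16 : ℤ_[p]) ^ (p - 1) = (2 ^ (p - 1)) ^ 4 := by
      rw [← pow_mul, mul_comm (p - 1) 4, pow_mul]; norm_num
    have h64 : (64 : ℤ_[p]) ^ (p - 1) = (2 ^ (p - 1)) ^ 6 := by
      rw [← pow_mul, mul_comm (p - 1) 6, pow_mul]; norm_num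
    have h2 : (2 : ℤ_[p]) ^ (p - 1) = 1 + p * (q p : ℤ_[p]) := by linear_combination -hq'
    rw [hI]
    push_cast
    rw [hf, he, h16, h64, h2]
    generalize ((q p : ℤ) : ℤ_[p]) = y
    generalize (p : ℤ_[p]) = P
    exact ⟨f - 4 * e - y ^ 3 * (80 + 180 * (P * y) + 144 * (P * y) ^ 2 + 40 * (P * y) ^ 3), by ring⟩
  set X : ℚ := (∑ n ∈ Finset.range p, (3 * (n : ℚ) ^ 2 + n) / 16 ^ n * (s n : ℚ)) -
      (-4 * (p : ℚ) ^ 4 * (q p : ℚ) + 6 * (p : ℚ) ^ 5 * (q p : ℚ) ^ 2) with hX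
  have hXI : X * ((6 * 16 ^ (p - 1) : ℤ) : ℚ) = (I : ℚ) := by
    have h4 := congrArg (Int.cast : ℤ → ℚ) htel
    have h5 : 6 * (16 ^ (p - 1) * ∑ n ∈ Finset.range p, (3 * (n : ℚ) ^ 2 + n) / 16 ^ n * (s n : ℚ)) =
        (p : ℚ) ^ 3 * ((s p : ℚ) - 4 * (s (p - 1) : ℚ)) := by
      have h6 : (16 : ℚ) ^ (p - 1) * ∑ n ∈ Finset.range p, (3 * (n : ℚ) ^ 2 + n) / 16 ^ n * (s n : ℚ) =
          ∑ n ∈ Finset.range p, (3 * (n : ℚ) ^ 2 + n) * 16 ^ (p - 1 - n) * (s n : ℚ) := by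
        rw [Finset.mul_sum]
        apply Finset.sum_congr rfl
        intro n hn
        rw [Finset.mem_range] at hn
        have h7 : (16 : ℚ) ^ (p - 1) = 16 ^ (p - 1 - n) * 16 ^ n := by
          rw [← pow_add]; congr 1; omega
        rw [h7]
        field_simp
      rw [h6]
      have h8 : ((p - 1 : ℕ) : ℚ) + 1 = p := by
        rw [Nat.cast_sub (by omega)]; push_cast; ring
      push_cast at h4
      rw [h8] at h4
      exact h4
    rw [hX, hI]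
    push_cast
    linear_combination h5
  -- conclude
  have h6 : X.num * (6 * 16 ^ (p - 1)) = I * X.den := by
    have h7 : (X.num : ℚ) * ((6 * 16 ^ (p - 1) : ℤ) : ℚ) = (I : ℚ) * (X.den : ℚ) := by
      rw [← hXI, ← Rat.mul_den_eq_num X]
      ring
    exact_mod_cast h7
  have h7 : (p : ℤ) ^ 6 ∣ X.num * (6 * 16 ^ (p - 1)) := by
    rw [h6]; exact Dvd.dvd.mul_right hI6 _
  have h8 : IsCoprime ((p : ℤ) ^ 6) (6 * 16 ^ (p - 1)) := by
    apply IsCoprime.pow_left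
    have c6 : Nat.Coprime p 6 := (Nat.Prime.coprime_iff_not_dvd hp).2 (by
      intro h
      have h9 : p ≤ 6 := Nat.le_of_dvd (by norm_num) h
      interval_cases p
      · omega
      · exact absurd hp (by decide))
    have c16 : Nat.Coprime p 16 := (Nat.Prime.coprime_iff_not_dvd hp).2 (by
      intro h
      have h9 : p ∣ 2 ^ 4 := by simpa using h
      have h10 := hp.dvd_of_dvd_pow h9
      have := Nat.le_of_dvd (by norm_num) h10
      omega)
    apply IsCoprime.mul_right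
    · exact_mod_cast Nat.isCoprime_iff_coprime.2 c6
    · apply IsCoprime.pow_right
      exact_mod_cast Nat.isCoprime_iff_coprime.2 c16
  exact h8.dvd_of_dvd_mul_right h7

end Pool.Agent.Results.MP_4af00a_nt.ModP6
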