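import Pool.Agent.V11308.Domb

/-!
# MP_4af00a, Q2: `a_m` is an integer, and it is odd exactly when `m` is a power of `2`.
-/

namespace Pool.Agent.Results.MP_4af00a_nt.Parity

open Finset Pool.Agent.V11308

/-- `s_n = ∑_k C(n,k)^2 C(2k,k) C(2(n-k),n-k)` -/
def s (n : ℕ) : ℤ := ∑ k ∈ Finset.range (n + 1),
  (n.choose k : ℤ) ^ 2 * ((2 * k).choose k : ℤ) * ((2 * (n - k)).choose (n - k) : ℤ)

/-- `a_m = (1 / (2 m^3 (m-1))) ∑_{n<m} (3n^2+n) 16^(m-1-n) s_n` -/
def a (m : ℕ) : ℚ :=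
  1 / (2 * (m : ℚ) ^ 3 * ((m : ℚ) - 1)) *
    ∑ n ∈ Finset.range m, (3 * (n : ℚ) ^ 2 + n) * 16 ^ (m - 1 - n) * (s n : ℚ)

/-- `v m i = C(2i+1,i+1) Cat_i C(m+i,i+1) C(m-2,2i)` -/
def v (m i : ℕ) : ℕ :=
  (2 * i + 1).choose (i + 1) * catalan i * (m + i).choose (i + 1) * (m - 2).choose (2 * i)

lemma diff_term (M i : ℕ) (hM : 1 ≤ M) :
    Domb.t (M + 1) (i + 1) - 4 * Domb.t M (i + 1) =
      6 * M * (v (M + 1) i : ℚ) * 4 ^ (M + 1) / 16 ^ (i + 1) := by
  have h2 := Domb.s2 M i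
  have h3 := Domb.s3 M i
  have hi : 16 * ((i : ℚ) + 1) ^ 5 ≠ 0 := by positivity
  have hv : ((i : ℚ) + 1) ^ 3 * (M * (v (M + 1) i : ℚ)) = (2 * i + 1) * (M + 1 - 2 * i) * (M - 2 * i) *
      (((M + 1 + i).choose i : ℚ) * ((M + 1).choose (2 * i) : ℚ) * ((2 * i).choose i : ℚ) ^ 2) := by
    unfold v
    have e1 : ((2 * i + 1).choose (i + 1) : ℚ) * (i + 1) = (2 * i + 1) * ((2 * i).choose i : ℚ) := by
      have := congrArg (Nat.cast : ℕ → ℚ) (Nat.add_one_mul_choose_eq (2 * i) i)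
      push_cast at this
      linear_combination -this
    have e2 : (catalan i : ℚ) * (i + 1) = ((2 * i).choose i : ℚ) := by
      have := congrArg (Nat.cast : ℕ → ℚ) (succ_mul_catalan_eq_centralBinom i)
      unfold Nat.centralBinom at this
      push_cast at this
      linear_combination this
    have e3 : ((M + 1 + i).choose (i + 1) : ℚ) * (i + 1) = (M + 1) * ((M + 1 + i).choose i : ℚ) := by
      have := congrArg (Nat.cast : ℕ → ℚ) (Nat.choose_succ_right_eq (M + 1 + i) i)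
      rw [show M + 1 + i - i = M + 1 by omega] at this
      push_cast at this
      linear_combination this
    have e4 : (M + 1) * (M * ((M - 1).choose (2 * i) : ℚ)) =
        (M + 1 - 2 * i) * (M - 2 * i) * ((M + 1).choose (2 * i) : ℚ) := by
      have h4 := congrArg (Nat.cast : ℕ → ℚ) (Nat.choose_mul_succ_eq M (2 * i))
      have h5 := congrArg (Nat.cast : ℕ → ℚ) (Nat.choose_mul_succ_eq (M - 1) (2 * i))
      rw [show M - 1 + 1 = M by omega] at h5
      have h6 : ((M + 1).choose (2 * i) : ℚ) * ((M + 1 - 2 * i : ℕ) : ℚ) =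
          ((M + 1).choose (2 * i) : ℚ) * (M + 1 - 2 * i) := by
        rcases Nat.lt_or_ge (M + 1) (2 * i) with h | h
        · rw [Nat.choose_eq_zero_of_lt h]; simp
        · rw [Nat.cast_sub h]; push_cast; ring
      have h7 : (M.choose (2 * i) : ℚ) * ((M - 2 * i : ℕ) : ℚ) =
          (M.choose (2 * i) : ℚ) * (M - 2 * i) := by
        rcases Nat.lt_or_ge M (2 * i) with h | h
        · rw [Nat.choose_eq_zero_of_lt h]; simp
        · rw [Nat.cast_sub h]; push_cast; ring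
      have h8 : ((M - 1 : ℕ) : ℚ) + 1 = M := by
        rw [Nat.cast_sub hM]; push_cast; ring
      push_cast at h4 h5
      rw [h6] at h4
      rw [h7] at h5
      have h9 : ((M - 1).choose (2 * i) : ℚ) * M = (M.choose (2 * i) : ℚ) * (M - 2 * i) := by
        exact_mod_cast h5
      linear_combination (M + 1) * h9 + (M - 2 * i) * h4
    rw [show M + 1 - 2 = M - 1 by omega]
    push_cast
    generalize ((2 * i + 1).choose (i + 1) : ℚ) = x1 at *
    generalize (catalan i : ℚ) = x2 at *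
    generalize ((M + 1 + i).choose (i + 1) : ℚ) = x3 at *
    generalize ((M - 1).choose (2 * i) : ℚ) = x4 at *
    have hM0 : ((M : ℚ) + 1) ≠ 0 := by positivity
    apply mul_left_cancel₀ hM0
    calc ((M : ℚ) + 1) * (((i : ℚ) + 1) ^ 3 * (M * (x1 * x2 * x3 * x4)))
        = (x1 * (i + 1)) * (x2 * (i + 1)) * (x3 * (i + 1)) * ((M + 1) * (M * x4)) := by ring
      _ = _ := by rw [e1, e2, e3, e4]; ring
  have ht : Domb.t (M + 1) i = (((M + 1 + i).choose i : ℚ) * ((M + 1).choose (2 * i) : ℚ) *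
      ((2 * i).choose i : ℚ) ^ 2) * (4 ^ (M + 1) / 16 ^ i) := by
    unfold Domb.t; ring
  apply mul_left_cancel₀ hi
  have e5 : 16 * ((i : ℚ) + 1) ^ 5 * (6 * M * (v (M + 1) i : ℚ) * 4 ^ (M + 1) / 16 ^ (i + 1)) =
      6 * (i + 1) ^ 2 * (((i : ℚ) + 1) ^ 3 * (M * (v (M + 1) i : ℚ))) * (4 ^ (M + 1) / 16 ^ i) := by
    rw [pow_succ 16 i]; field_simp
  rw [e5, hv]
  rw [ht] at h2 h3
  linear_combination h2 - h3

lemma s_diff (M : ℕ) (hM : 1 ≤ M) :
    ((s (M + 1) : ℚ) - 4 * s M) = 12 * M * ∑ i ∈ Finset.range (M + 1),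
      (v (M + 1) i : ℚ) * 4 ^ (M + 1) / 16 ^ (i + 1) / 2 := by
  have h1 : (s (M + 1) : ℚ) = ∑ j ∈ Finset.range (M + 2), Domb.t (M + 1) j :=
    Domb.s_eq' (M + 1) (M + 2) (by omega)
  have h2 : (s M : ℚ) = ∑ j ∈ Finset.range (M + 2), Domb.t M j := Domb.s_eq' M (M + 2) (by omega)
  rw [h1, h2, Finset.mul_sum, ← Finset.sum_sub_distrib, Finset.sum_range_succ']
  have h0 : Domb.t (M + 1) 0 - 4 * Domb.t M 0 = 0 := by
    unfold Domb.t; simp; ring
  rw [h0, add_zero, Finset.mul_sum]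
  apply Finset.sum_congr rfl
  intro i _
  rw [diff_term M i hM]
  ring

/-- the integer version of the summand -/
def w (m i : ℕ) : ℤ :=
  if 2 * i + 2 < m then (v m i : ℤ) * (2 * 4 ^ (m - 3 - 2 * i)) else
    if 2 * i + 2 = m then (v m i : ℤ) / 2 else 0

/-- the diagonal value -/
lemma v_diag (i : ℕ) : 3 * (2 * i + 1) * v (2 * i + 2) i =
    2 * ((2 * i + 1).choose (i + 1)) ^ 2 * (3 * (i + 1)).choose (i + 1) := by
  unfold v
  have e2 : (2 * i + 1) * catalan i = (2 * i + 1).choose (i + 1) := by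
    have h1 := Nat.add_one_mul_choose_eq (2 * i) i
    have h2 := succ_mul_catalan_eq_centralBinom i
    unfold Nat.centralBinom at h2
    rw [← h2] at h1
    have h3 : (i + 1) * ((2 * i + 1) * catalan i) = (i + 1) * (2 * i + 1).choose (i + 1) := by
      linarith
    exact Nat.eq_of_mul_eq_mul_left (by omega) h3
  have e3 : 3 * (2 * i + 2 + i).choose (i + 1) = 2 * (3 * (i + 1)).choose (i + 1) := by
    have h1 := Nat.choose_mul_succ_eq (2 * i + 2 + i) (i + 1)
    rw [show 2 * i + 2 + i + 1 - (i + 1) = 2 * (i + 1) by omega,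
      show 2 * i + 2 + i + 1 = 3 * (i + 1) by ring] at h1
    have h3 : (i + 1) * (3 * (2 * i + 2 + i).choose (i + 1)) =
        (i + 1) * (2 * (3 * (i + 1)).choose (i + 1)) := by linarith
    exact Nat.eq_of_mul_eq_mul_left (by omega) h3
  rw [show 2 * i + 2 - 2 = 2 * i by omega, Nat.choose_self, mul_one]
  calc 3 * (2 * i + 1) * ((2 * i + 1).choose (i + 1) * catalan i * (2 * i + 2 + i).choose (i + 1))
      = (2 * i + 1).choose (i + 1) * ((2 * i + 1) * catalan i) *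
          (3 * (2 * i + 2 + i).choose (i + 1)) := by ring
    _ = _ := by rw [e2, e3]; ring

lemma v_diag_even (i : ℕ) : 2 ∣ v (2 * i + 2) i := by
  have h := v_diag i
  have h2 : 2 ∣ 3 * (2 * i + 1) * v (2 * i + 2) i := by
    rw [h, mul_assoc]; exact dvd_mul_right _ _
  have h3 : Nat.Coprime 2 (3 * (2 * i + 1)) := by
    rw [Nat.coprime_two_left]
    exact (by decide : Odd 3).mul ⟨i, rfl⟩
  exact h3.dvd_of_dvd_mul_left h2

lemma half_odd_iff (i : ℕ) : Odd (v (2 * i + 2) i / 2) ↔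
    Odd ((2 * i + 1).choose (i + 1)) ∧ Odd ((3 * (i + 1)).choose (i + 1)) := by
  have h := v_diag i
  obtain ⟨y, hy⟩ := v_diag_even i
  rw [hy, Nat.mul_div_cancel_left _ (by norm_num : 0 < 2)]
  rw [hy] at h
  have h2 : 3 * (2 * i + 1) * y =
      ((2 * i + 1).choose (i + 1)) ^ 2 * (3 * (i + 1)).choose (i + 1) := by
    have : 2 * (3 * (2 * i + 1) * y) =
      2 * (((2 * i + 1).choose (i + 1)) ^ 2 * (3 * (i + 1)).choose (i + 1)) := by linarith
    exact Nat.eq_of_mul_eq_mul_left (by norm_num) this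
  have h3 : Odd (3 * (2 * i + 1)) := (by decide : Odd 3).mul ⟨i, rfl⟩
  have h4 : Odd y ↔ Odd (3 * (2 * i + 1) * y) := by
    rw [Nat.odd_mul (m := 3 * (2 * i + 1))]
    exact ⟨fun h => ⟨h3, h⟩, fun h => h.2⟩
  rw [h4, h2, Nat.odd_mul, Nat.odd_pow_iff (by norm_num)]

lemma lucas2 (n k : ℕ) :
    Odd (n.choose k) ↔ Odd ((n % 2).choose (k % 2) * (n / 2).choose (k / 2)) := by
  have : Fact (Nat.Prime 2) := ⟨Nat.prime_two⟩
  have h := Choose.choose_modEq_choose_mod_mul_choose_div_nat (n := n) (k := k) (p := 2)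
  unfold Nat.ModEq at h
  rw [Nat.odd_iff, Nat.odd_iff, h]

lemma odd_cb (k : ℕ) : 1 ≤ k → (Odd ((2 * k - 1).choose k) ↔ ∃ e, k = 2 ^ e) := by
  induction k using Nat.strong_induction_on with
  | _ k ih =>
    intro hk
    rw [lucas2]
    rcases Nat.even_or_odd' k with ⟨k', rfl | rfl⟩
    · rw [show (2 * (2 * k') - 1) % 2 = 1 by omega, show (2 * k') % 2 = 0 by omega,
        show (2 * (2 * k') - 1) / 2 = 2 * k' - 1 by omega, show 2 * k' / 2 = k' by omega,
        Nat.choose_zero_right, one_mul, ih k' (by omega) (by omega)]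
      constructor
      · rintro ⟨e, he⟩; exact ⟨e + 1, by rw [he]; ring⟩
      · rintro ⟨e, he⟩
        rcases Nat.eq_zero_or_pos e with h0 | h0
        · subst h0; omega
        · obtain ⟨e', rfl⟩ : ∃ e', e = e' + 1 := ⟨e - 1, by omega⟩
          exact ⟨e', by rw [pow_succ] at he; omega⟩
    · rw [show (2 * (2 * k' + 1) - 1) % 2 = 1 by omega, show (2 * k' + 1) % 2 = 1 by omega,
        show (2 * (2 * k' + 1) - 1) / 2 = 2 * k' by omega, show (2 * k' + 1) / 2 = k' by omega,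
        Nat.choose_self, one_mul]
      rcases Nat.eq_zero_or_pos k' with h0 | h0
      · subst h0; simp; exact ⟨0, rfl⟩
      · have h1 : ¬ Odd ((2 * k').choose k') := by
          rw [Nat.not_odd_iff_even]
          exact even_iff_two_dvd.2 (Nat.two_dvd_centralBinom_of_one_le h0)
        have h2 : ¬ ∃ e, 2 * k' + 1 = 2 ^ e := by
          rintro ⟨e, he⟩
          rcases Nat.eq_zero_or_pos e with h0 | h0
          · subst h0; omega
          · obtain ⟨e', rfl⟩ : ∃ e', e = e' + 1 := ⟨e - 1, by omega⟩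
            rw [pow_succ] at he; omega
        exact ⟨fun h => absurd h h1, fun h => absurd h h2⟩

lemma odd_c3 (e : ℕ) : Odd ((3 * 2 ^ e).choose (2 ^ e)) := by
  induction e with
  | zero => decide
  | succ e ih =>
    rw [lucas2, pow_succ, show 3 * (2 ^ e * 2) % 2 = 0 by omega, show 2 ^ e * 2 % 2 = 0 by omega,
      show 3 * (2 ^ e * 2) / 2 = 3 * 2 ^ e by omega, show 2 ^ e * 2 / 2 = 2 ^ e by omega]
    simpa using ih

lemma diag_odd_iff (i : ℕ) : Odd (v (2 * i + 2) i / 2) ↔ ∃ e, i + 1 = 2 ^ e := by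
  rw [half_odd_iff]
  have h := odd_cb (i + 1) (by omega)
  rw [show 2 * (i + 1) - 1 = 2 * i + 1 by omega] at h
  rw [h]
  constructor
  · exact fun h => h.1
  · rintro ⟨e, he⟩
    exact ⟨⟨e, he⟩, by rw [he]; exact odd_c3 e⟩

lemma w_eq (m i : ℕ) (hm : 2 ≤ m) :
    (v m i : ℚ) * 4 ^ m / 16 ^ (i + 1) / 2 = ((w m i : ℤ) : ℚ) := by
  unfold w
  split_ifs with h1 h2
  · have h3 : (4 : ℚ) ^ m = 16 ^ (i + 1) * (4 * 4 ^ (m - 3 - 2 * i)) := by
      rw [show (16 : ℚ) = 4 ^ 2 by norm_num, ← pow_mul, ← pow_succ', ← pow_add]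
      congr 1; omega
    rw [h3]
    push_cast
    field_simp
    ring
  · subst h2
    obtain ⟨y, hy⟩ := v_diag_even i
    rw [hy]
    have h3 : (4 : ℚ) ^ (2 * i + 2) = 16 ^ (i + 1) := by
      rw [show (16 : ℚ) = 4 ^ 2 by norm_num, ← pow_mul]; congr 1
    rw [h3]
    push_cast
    rw [Int.mul_ediv_cancel_left _ (by norm_num)]
    push_cast
    field_simp
  · have : v m i = 0 := by
      unfold v
      rw [Nat.choose_eq_zero_of_lt (by omega : m - 2 < 2 * i), mul_zero]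
    rw [this]; simp

lemma a_eq (m : ℕ) (hm : 2 ≤ m) : a m = ((∑ i ∈ Finset.range m, w m i : ℤ) : ℚ) := by
  obtain ⟨M, rfl⟩ : ∃ M, m = M + 1 := ⟨m - 1, by omega⟩
  have h1 := Domb.telescope M
  have h2 := s_diff M (by omega)
  have h3 : ∑ n ∈ Finset.range (M + 1), (3 * (n : ℚ) ^ 2 + n) * 16 ^ (M + 1 - 1 - n) * (s n : ℚ) =
      ((M : ℚ) + 1) ^ 3 * ((s (M + 1) : ℚ) - 4 * (s M : ℚ)) / 6 := by
    have h4 := congrArg (Int.cast : ℤ → ℚ) h1
    push_cast at h4
    rw [show M + 1 - 1 = M by omega]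
    change 6 * ∑ n ∈ Finset.range (M + 1), (3 * (n : ℚ) ^ 2 + n) * 16 ^ (M - n) * (s n : ℚ) =
      ((M : ℚ) + 1) ^ 3 * ((s (M + 1) : ℚ) - 4 * (s M : ℚ)) at h4
    linear_combination h4 / 6
  unfold a
  rw [h3, h2]
  have hM : (M : ℚ) ≠ 0 := by
    have : M ≠ 0 := by omega
    exact_mod_cast this
  have hM1 : (M : ℚ) + 1 ≠ 0 := by positivity
  have h5 : ∑ i ∈ Finset.range (M + 1), (v (M + 1) i : ℚ) * 4 ^ (M + 1) / 16 ^ (i + 1) / 2 =
      ((∑ i ∈ Finset.range (M + 1), w (M + 1) i : ℤ) : ℚ) := by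
    push_cast
    apply Finset.sum_congr rfl
    intro i _
    rw [w_eq _ _ (by omega)]
  rw [h5]
  generalize ((∑ i ∈ Finset.range (M + 1), w (M + 1) i : ℤ) : ℚ) = Z
  push_cast
  rw [show (M : ℚ) + 1 - 1 = M by ring]
  field_simp
  ring

lemma odd_iff (m : ℕ) (hm : 2 ≤ m) :
    Odd (∑ i ∈ Finset.range m, w m i) ↔ ∃ e, m = 2 ^ e := by
  rcases Nat.even_or_odd' m with ⟨k, rfl | rfl⟩
  · -- `m = 2k`
    obtain ⟨i, rfl⟩ : ∃ i, k = i + 1 := ⟨k - 1, by omega⟩
    have h1 : ∑ j ∈ Finset.range (2 * (i + 1)), w (2 * (i + 1)) j =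
        w (2 * (i + 1)) i + ∑ j ∈ (Finset.range (2 * (i + 1))).erase i, w (2 * (i + 1)) j :=
      (Finset.add_sum_erase _ _ (by rw [Finset.mem_range]; omega)).symm
    have h2 : Even (∑ j ∈ (Finset.range (2 * (i + 1))).erase i, w (2 * (i + 1)) j) := by
      rw [even_iff_two_dvd]
      apply Finset.dvd_sum
      intro j hj
      rw [Finset.mem_erase] at hj
      unfold w
      split_ifs with h3 h4
      · exact ⟨(v (2 * (i + 1)) j : ℤ) * 4 ^ (2 * (i + 1) - 3 - 2 * j), by ring⟩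
      · omega
      · exact dvd_zero _
    rw [h1, Int.odd_add]
    have h3 : w (2 * (i + 1)) i = ((v (2 * i + 2) i / 2 : ℕ) : ℤ) := by
      unfold w
      rw [if_neg (by omega), if_pos (by ring), show 2 * (i + 1) = 2 * i + 2 by ring]
      push_cast
      rfl
    rw [h3, Int.odd_coe_nat, diag_odd_iff]
    constructor
    · intro h
      obtain ⟨e, he⟩ := h.2 h2
      exact ⟨e + 1, by rw [he]; ring⟩
    · rintro ⟨e, he⟩
      refine ⟨fun _ => h2, fun _ => ?_⟩
      rcases Nat.eq_zero_or_pos e with h0 | h0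
      · subst h0; omega
      · obtain ⟨e', rfl⟩ : ∃ e', e = e' + 1 := ⟨e - 1, by omega⟩
        exact ⟨e', by rw [pow_succ] at he; omega⟩
  · -- `m` odd
    have h2 : Even (∑ j ∈ Finset.range (2 * k + 1), w (2 * k + 1) j) := by
      rw [even_iff_two_dvd]
      apply Finset.dvd_sum
      intro j hj
      unfold w
      split_ifs with h3 h4
      · exact ⟨(v (2 * k + 1) j : ℤ) * 4 ^ (2 * k + 1 - 3 - 2 * j), by ring⟩
      · omega
      · exact dvd_zero _
    constructor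
    · intro h
      exact absurd h (Int.not_odd_iff_even.2 h2)
    · rintro ⟨e, he⟩
      exfalso
      rcases Nat.eq_zero_or_pos e with h0 | h0
      · subst h0; omega
      · obtain ⟨e', rfl⟩ : ∃ e', e = e' + 1 := ⟨e - 1, by omega⟩
        rw [pow_succ] at he; omega

/-- For every `m > 1` the number `a_m` is an integer, and it is odd iff `m` is a power of `2`. -/
theorem result : ∀ m : ℕ, 1 < m → ∃ z : ℤ, a m = (z : ℚ) ∧ (Odd z ↔ ∃ e : ℕ, m = 2 ^ e) :=
  fun m hm => ⟨_, a_eq m hm, odd_iff m hm⟩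

end Pool.Agent.Results.MP_4af00a_nt.Parity
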